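import Pool.Agent.H94.M4.Targets

/-!
Theorem G: numerical part of the four-linear restriction in the cubes of side `R^{1/2}`.
-/

set_option autoImplicit false

namespace Pool.Agent.H96.M4.C4Q

open Pool.Agent.H83.G

/-- one factor -/
theorem num_one {R H CG x P I m : ℝ} (hR : 1 ≤ R) (hH : 0 < H) (_hCG : 1 ≤ CG) (_hP : 0 ≤ P)
    (hI : I ≤ CG * R ^ x * (16 * P) * R ^ ((m + 1) / 2)) :
    2 * (Real.sqrt R)⁻¹ * I / (H / 2) ^ 2 ≤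
      128 * CG * R ^ x * (P * R ^ (m / 2)) * (H ^ 2)⁻¹ := by
  have hR0 : 0 < R := by linarith
  have hsq0 : 0 < Real.sqrt R := Real.sqrt_pos.2 hR0
  have h1 : R ^ ((m + 1) / 2) = R ^ (m / 2) * Real.sqrt R := by
    rw [Real.sqrt_eq_rpow, ← Real.rpow_add hR0]
    exact congrArg _ (by ring)
  have h2 : 2 * (Real.sqrt R)⁻¹ * I ≤ 2 * (Real.sqrt R)⁻¹ *
      (CG * R ^ x * (16 * P) * (R ^ (m / 2) * Real.sqrt R)) := by
    rw [← h1]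
    exact mul_le_mul_of_nonneg_left hI (by positivity)
  rw [div_le_iff₀ (by positivity)]
  refine h2.trans (le_of_eq ?_)
  have e : (Real.sqrt R)⁻¹ * Real.sqrt R = 1 := inv_mul_cancel₀ hsq0.ne'
  have e' : (H ^ 2)⁻¹ * H ^ 2 = 1 := inv_mul_cancel₀ (by positivity)
  calc 2 * (Real.sqrt R)⁻¹ * (CG * R ^ x * (16 * P) * (R ^ (m / 2) * Real.sqrt R))
      = 32 * CG * R ^ x * (P * R ^ (m / 2)) * ((Real.sqrt R)⁻¹ * Real.sqrt R) := by ring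
    _ = 32 * CG * R ^ x * (P * R ^ (m / 2)) * ((H ^ 2)⁻¹ * H ^ 2) := by rw [e, e']
    _ = _ := by ring

theorem num_root {R H CG x Q : ℝ} (hR : 1 ≤ R) (hH : 0 < H) (hCG : 1 ≤ CG) (hQ : 0 ≤ Q) :
    (128 * CG * R ^ x * Q * (H ^ 2)⁻¹) ^ (1 / 3 : ℝ) =
      ((128 * CG) ^ (1 / 3 : ℝ) * R ^ (x / 3) * H ^ (-(2 / 3) : ℝ)) * Q ^ (1 / 3 : ℝ) := by
  have hR0 : 0 < R := by linarith
  have e1 : (H ^ 2)⁻¹ = H ^ (-2 : ℝ) := by
    rw [Real.rpow_neg hH.le]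
    norm_num
  rw [e1, Real.mul_rpow (by positivity) (by positivity), Real.mul_rpow (by positivity) hQ,
    Real.mul_rpow (by positivity) (by positivity), ← Real.rpow_mul hR0.le,
    ← Real.rpow_mul hH.le]
  have e2 : x * (1 / 3) = x / 3 := by ring
  have e3 : (-2 : ℝ) * (1 / 3) = -(2 / 3) := by norm_num
  rw [e2, e3]
  ring

/-- the product of the four factors -/
theorem num_four {R H CG x : ℝ} {J Q : Fin 4 → ℝ} (hR : 1 ≤ R) (hH : 0 < H) (hCG : 1 ≤ CG)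
    (hQ : ∀ i, 0 ≤ Q i) (hJ0 : ∀ i, 0 ≤ J i)
    (hJ : ∀ i, J i ≤ 128 * CG * R ^ x * Q i * (H ^ 2)⁻¹) :
    (∏ i, J i ^ (1 / 3 : ℝ)) * H ^ (8 / 3 : ℝ) ≤
      (128 * CG) ^ 2 * R ^ (4 / 3 * x) * ∏ i, Q i ^ (1 / 3 : ℝ) := by
  have hR0 : 0 < R := by linarith
  have h1 : ∏ i, J i ^ (1 / 3 : ℝ) ≤
      ((128 * CG) ^ (1 / 3 : ℝ) * R ^ (x / 3) * H ^ (-(2 / 3) : ℝ)) ^ 4 *
        ∏ i, Q i ^ (1 / 3 : ℝ) := by
    calc ∏ i, J i ^ (1 / 3 : ℝ)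
        ≤ ∏ i, (((128 * CG) ^ (1 / 3 : ℝ) * R ^ (x / 3) * H ^ (-(2 / 3) : ℝ)) *
          Q i ^ (1 / 3 : ℝ)) := by
          refine Finset.prod_le_prod (fun i _ => Real.rpow_nonneg (hJ0 i) _) fun i _ => ?_
          rw [← num_root hR hH hCG (hQ i)]
          exact Real.rpow_le_rpow (hJ0 i) (hJ i) (by norm_num)
      _ = _ := by
          rw [Finset.prod_mul_distrib, Finset.prod_const, Finset.card_univ, Fintype.card_fin]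
  have h2 : ((128 * CG) ^ (1 / 3 : ℝ) * R ^ (x / 3) * H ^ (-(2 / 3) : ℝ)) ^ 4 *
      H ^ (8 / 3 : ℝ) = (128 * CG) ^ (4 / 3 : ℝ) * R ^ (4 / 3 * x) := by
    have e1 : ((128 * CG) ^ (1 / 3 : ℝ)) ^ 4 = (128 * CG) ^ (4 / 3 : ℝ) := by
      rw [← Real.rpow_natCast, ← Real.rpow_mul (by positivity)]
      norm_num
    have e2 : (R ^ (x / 3)) ^ 4 = R ^ (4 / 3 * x) := by
      rw [← Real.rpow_natCast, ← Real.rpow_mul hR0.le]
      exact congrArg _ (by push_cast; ring)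
    have e3 : (H ^ (-(2 / 3) : ℝ)) ^ 4 * H ^ (8 / 3 : ℝ) = 1 := by
      rw [← Real.rpow_natCast, ← Real.rpow_mul hH.le, ← Real.rpow_add hH]
      norm_num
    rw [mul_pow, mul_pow, e1, e2, mul_assoc, e3, mul_one]
  have h3 : (128 * CG) ^ (4 / 3 : ℝ) ≤ (128 * CG) ^ 2 := by
    have h4 : (1 : ℝ) ≤ 128 * CG := by linarith
    calc (128 * CG) ^ (4 / 3 : ℝ) ≤ (128 * CG) ^ (2 : ℝ) :=
          Real.rpow_le_rpow_of_exponent_le h4 (by norm_num)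
      _ = (128 * CG) ^ 2 := by norm_num
  have hP0 : 0 ≤ ∏ i, Q i ^ (1 / 3 : ℝ) :=
    Finset.prod_nonneg fun i _ => Real.rpow_nonneg (hQ i) _
  calc (∏ i, J i ^ (1 / 3 : ℝ)) * H ^ (8 / 3 : ℝ)
      ≤ (((128 * CG) ^ (1 / 3 : ℝ) * R ^ (x / 3) * H ^ (-(2 / 3) : ℝ)) ^ 4 *
        ∏ i, Q i ^ (1 / 3 : ℝ)) * H ^ (8 / 3 : ℝ) :=
        mul_le_mul_of_nonneg_right h1 (by positivity)
    _ = (((128 * CG) ^ (1 / 3 : ℝ) * R ^ (x / 3) * H ^ (-(2 / 3) : ℝ)) ^ 4 *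
        H ^ (8 / 3 : ℝ)) * ∏ i, Q i ^ (1 / 3 : ℝ) := by ring
    _ = (128 * CG) ^ (4 / 3 : ℝ) * R ^ (4 / 3 * x) * ∏ i, Q i ^ (1 / 3 : ℝ) := by rw [h2]
    _ ≤ _ := mul_le_mul_of_nonneg_right (mul_le_mul_of_nonneg_right h3 (by positivity)) hP0

/-- the radius of the ball -/
theorem num_rad {R δ n : ℝ} (hR : 1 ≤ R) (hδ : 0 < δ) (hδ1 : δ ≤ 1 / 100) (hn : 0 ≤ n) :
    ((n + 1) * Real.sqrt R) ^ δ ≤ (n + 1) * R ^ δ := by
  have hR0 : 0 < R := by linarith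
  have hsq0 : 0 < Real.sqrt R := Real.sqrt_pos.2 hR0
  rw [Real.mul_rpow (by positivity) hsq0.le]
  refine mul_le_mul ?_ ?_ (by positivity) (by positivity)
  · calc (n + 1) ^ δ ≤ (n + 1) ^ (1 : ℝ) :=
          Real.rpow_le_rpow_of_exponent_le (by linarith) (by linarith)
      _ = _ := Real.rpow_one _
  · refine Real.rpow_le_rpow hsq0.le ?_ hδ.le
    rw [Real.sqrt_le_iff]
    exact ⟨hR0.le, by nlinarith⟩

/-- all numbers for one cube -/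
theorem num_cube {m : ℕ} {R H CG CF δ n : ℝ} {I P : Fin 4 → ℝ} (hR : 1 ≤ R) (hH : 0 < H)
    (hCG : 1 ≤ CG) (hCF : 0 ≤ CF) (hδ : 0 < δ) (hδ1 : δ ≤ 1 / 100) (hP : ∀ i, 0 ≤ P i)
    (hI0 : ∀ i, 0 ≤ I i)
    (hI : ∀ i, I i ≤ CG * R ^ (lo m * δ) * (16 * P i) * R ^ (((m : ℝ) + 1) / 2))
    (hn : n ≤ CF * (((m : ℝ) + 1) * Real.sqrt R) ^ δ *
      ∏ i, (2 * (Real.sqrt R)⁻¹ * I i / (H / 2) ^ 2) ^ (1 / 3 : ℝ)) :
    n * H ^ (8 / 3 : ℝ) ≤ CF * ((m : ℝ) + 1) * (128 * CG) ^ 2 * R ^ (2 * lo m * δ) *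
      ∏ i, (P i * R ^ ((m : ℝ) / 2)) ^ (1 / 3 : ℝ) := by
  have hR0 : 0 < R := by linarith
  have hm0 : (0 : ℝ) ≤ m := Nat.cast_nonneg m
  have hsq0 : 0 < Real.sqrt R := Real.sqrt_pos.2 hR0
  have h4 := num_four (J := fun i => 2 * (Real.sqrt R)⁻¹ * I i / (H / 2) ^ 2)
    (Q := fun i => P i * R ^ ((m : ℝ) / 2)) (x := lo m * δ) hR hH hCG
    (fun i => mul_nonneg (hP i) (by positivity))
    (fun i => div_nonneg (mul_nonneg (by positivity) (hI0 i)) (by positivity))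
    (fun i => num_one hR hH hCG (hP i) (hI i))
  have hrad := num_rad hR hδ hδ1 hm0
  have hprod0 : 0 ≤ ∏ i, (2 * (Real.sqrt R)⁻¹ * I i / (H / 2) ^ 2) ^ (1 / 3 : ℝ) :=
    Finset.prod_nonneg fun i _ => Real.rpow_nonneg
      (div_nonneg (mul_nonneg (by positivity) (hI0 i)) (by positivity)) _
  have hQ0 : 0 ≤ ∏ i, (P i * R ^ ((m : ℝ) / 2)) ^ (1 / 3 : ℝ) :=
    Finset.prod_nonneg fun i _ => Real.rpow_nonneg (mul_nonneg (hP i) (by positivity)) _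
  have hexp : R ^ δ * R ^ (4 / 3 * (lo m * δ)) ≤ R ^ (2 * lo m * δ) := by
    rw [← Real.rpow_add hR0]
    refine Real.rpow_le_rpow_of_exponent_le hR ?_
    have h1 : 2 * δ ≤ lo m * δ := by
      refine mul_le_mul_of_nonneg_right ?_ hδ.le
      unfold lo; linarith
    linarith
  calc n * H ^ (8 / 3 : ℝ)
      ≤ (CF * (((m : ℝ) + 1) * Real.sqrt R) ^ δ *
        ∏ i, (2 * (Real.sqrt R)⁻¹ * I i / (H / 2) ^ 2) ^ (1 / 3 : ℝ)) * H ^ (8 / 3 : ℝ) :=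
        mul_le_mul_of_nonneg_right hn (by positivity)
    _ = (CF * (((m : ℝ) + 1) * Real.sqrt R) ^ δ) *
        ((∏ i, (2 * (Real.sqrt R)⁻¹ * I i / (H / 2) ^ 2) ^ (1 / 3 : ℝ)) * H ^ (8 / 3 : ℝ)) := by
        ring
    _ ≤ (CF * (((m : ℝ) + 1) * R ^ δ)) * ((128 * CG) ^ 2 * R ^ (4 / 3 * (lo m * δ)) *
        ∏ i, (P i * R ^ ((m : ℝ) / 2)) ^ (1 / 3 : ℝ)) := by
        refine mul_le_mul (mul_le_mul_of_nonneg_left hrad hCF) h4 ?_ (by positivity)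
        exact mul_nonneg hprod0 (by positivity)
    _ = CF * ((m : ℝ) + 1) * (128 * CG) ^ 2 * (R ^ δ * R ^ (4 / 3 * (lo m * δ))) *
        ∏ i, (P i * R ^ ((m : ℝ) / 2)) ^ (1 / 3 : ℝ) := by ring
    _ ≤ _ := by
        refine mul_le_mul_of_nonneg_right (mul_le_mul_of_nonneg_left hexp (by positivity)) hQ0

end Pool.Agent.H96.M4.C4Q
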