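import Pool.Agent.H96.M4.OneFam
import Pool.Agent.H96.M4.C4QN

/-!
Theorem G: four-linear restriction in the cubes of side `R^{1/2}`.
-/

set_option autoImplicit false

namespace Pool.Agent.H96.M4.C4Q

open MeasureTheory Set
open Pool.Agent.H94.M4
open Pool.Agent.H83.G
open scoped ENNReal NNReal RealInnerProductSpace

/-- the tails -/
theorem tail_num {R A H CT b₀ δ : ℝ} (hR : 1 ≤ R) (hH : 0 < H) (hCT : 0 < CT) (hb₀ : 0 < b₀)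
    (hbA : b₀ * A ≤ R ^ δ * H) (h2 : 2 * (CT * b₀⁻¹) ≤ R ^ δ) :
    CT * A * R ^ (-(2 * δ)) ≤ H / 2 := by
  have hR0 : 0 < R := by linarith
  have hRδ : 0 < R ^ δ := Real.rpow_pos_of_pos hR0 _
  have e1 : A ≤ b₀⁻¹ * (R ^ δ * H) := by
    rw [inv_mul_eq_div, le_div_iff₀ hb₀]
    linarith
  have e2 : R ^ (-(2 * δ)) * R ^ δ = R ^ (-δ) := by
    rw [← Real.rpow_add hR0]
    exact congrArg _ (by ring)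
  have e3 : CT * b₀⁻¹ * R ^ (-δ) ≤ 1 / 2 := by
    rw [Real.rpow_neg hR0.le, ← div_eq_mul_inv, div_le_iff₀ hRδ]
    linarith
  calc CT * A * R ^ (-(2 * δ)) ≤ CT * (b₀⁻¹ * (R ^ δ * H)) * R ^ (-(2 * δ)) := by
        refine mul_le_mul_of_nonneg_right (mul_le_mul_of_nonneg_left e1 hCT.le)
          (Real.rpow_nonneg hR0.le _)
    _ = CT * b₀⁻¹ * (R ^ (-(2 * δ)) * R ^ δ) * H := by ring
    _ = CT * b₀⁻¹ * R ^ (-δ) * H := by rw [e2]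
    _ ≤ 1 / 2 * H := mul_le_mul_of_nonneg_right e3 hH.le
    _ = H / 2 := by ring

open scoped Classical in
/-- lower bound for the near part -/
theorem low_one {m L : ℕ} {β : E m → ℂ} {ψ : Z m → ℝ} {δ CT : ℝ}
    (hδ : 0 < δ) (hCT0 : 0 < CT)
    (hTL : ∀ (κ R A : ℝ) (G : Z m → ℂ) (S : Finset (Pk m)) (z : Z m), 0 ≤ κ → κ ≤ 1 / 2 →
      1 ≤ R → 0 < A → Cls L κ R A G → (∀ W ∈ S, W.1 ∈ Ks m (sR R)) →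
      (∀ W ∈ S, ¬ near R δ W z) → ∑ W ∈ S, ‖Fp β ψ R δ G W z‖ ≤ CT * A * R ^ (-(2 * δ)))
    (hcb2 : ∀ (R δ : ℝ) (W : Pk m) (z : Z m), 1 ≤ R → 0 ≤ δ → near R δ W z →
      Inc R δ (tb R W) (cb (Real.sqrt R) z))
    {κ R A H b₀ r : ℝ} {l k : ℕ} {QQ : Finset (Zi m)} {G : Z m → ℂ} {S : Finset (Pk m)}
    {q : Zi m} {z : Z m} (hκ : 0 ≤ κ) (hκ1 : κ ≤ 3 / 8) (hR : 1 ≤ R) (hA : 0 < A) (hH : 0 < H)
    (hCls : Cls L κ R A G) (hS : ∀ W ∈ S, W.1 ∈ Ks m (sR R)) (hb₀ : 0 < b₀)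
    (hbA : b₀ * A ≤ R ^ δ * H) (h2 : 2 * (CT * b₀⁻¹) ≤ R ^ δ)
    (hzq : cb (Real.sqrt R) z = q)
    (hz : H ≤ ‖∑ W ∈ SB QQ R r δ l k S (bl R r q), Fp β ψ R δ G W z‖) :
    H / 2 ≤ ‖∑ W ∈ (SB QQ R r δ l k S (bl R r q)).filter (fun W => Inc R δ (tb R W) q),
      Fp β ψ R δ G W z‖ := by
  have h1 : ∑ W ∈ SB QQ R r δ l k S (bl R r q), Fp β ψ R δ G W z =
      ∑ W ∈ (SB QQ R r δ l k S (bl R r q)).filter (fun W => Inc R δ (tb R W) q),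
        Fp β ψ R δ G W z +
      ∑ W ∈ (SB QQ R r δ l k S (bl R r q)).filter (fun W => ¬ Inc R δ (tb R W) q),
        Fp β ψ R δ G W z := (Finset.sum_filter_add_sum_filter_not _ _ _).symm
  have h3 := hTL κ R A G
    ((SB QQ R r δ l k S (bl R r q)).filter (fun W => ¬ Inc R δ (tb R W) q)) z hκ
    (by linarith) hR hA hCls (fun W hW => hS W (Pool.Agent.H33.G.SB_subset
      (Finset.mem_filter.1 hW).1)) (fun W hW hn => by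
        refine (Finset.mem_filter.1 hW).2 ?_
        have := hcb2 R δ W z hR hδ.le hn
        rwa [hzq] at this)
  have h4 := tail_num hR hH hCT0 hb₀ hbA h2
  have h5 : ‖∑ W ∈ (SB QQ R r δ l k S (bl R r q)).filter (fun W => ¬ Inc R δ (tb R W) q),
      Fp β ψ R δ G W z‖ ≤ H / 2 := (norm_sum_le _ _).trans (h3.trans h4)
  rw [h1] at hz
  have h6 := hz.trans (norm_add_le _ _)
  linarith

open scoped Classical in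
/-- one cube -/
theorem one_cube (m L : ℕ) (β : E m → ℂ) (Ψ Ξ : Z m → ℂ) (ψ χ : Z m → ℝ)
    (K c₀ δ b₀ : ℝ) (hK : 1 ≤ K) (hχ : IsLow Ξ χ) (hδ : 0 < δ)
    (hδ1 : δ ≤ 1 / 100) (hb₀ : 0 < b₀) (N : ℕ) (CF CP CG CT CA : ℝ) (hCF0 : 0 ≤ CF)
    (hF : ∀ (R ρ H : ℝ) (c : Fin 4 → E m) (G : Fin 4 → Z m → ℂ) (z₀ : Z m)
      (Y : Finset (Z m)), 1 ≤ R → 0 < ρ → ρ * R ≤ 2 * ((m : ℝ) + 1) → 0 < H → CJ K c₀ c →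
      (∀ i, TC (G i)) →
      (∀ i ζ, G i ζ ≠ 0 → 1 / 4 ≤ ζ.1 ∧ ζ.1 ≤ 8 ∧ ‖ζ.1⁻¹ • ζ.2.1 - c i‖ ≤ 5 / (4 * K) ∧
        |ζ.2.2 - ‖ζ.2.1‖ ^ 2 / ζ.1| ≤ ρ) →
      Sep Y → (∀ z ∈ Y, ‖z - z₀‖ ≤ R) → (∀ z ∈ Y, ∀ i, H ≤ ‖TF (G i) z‖) →
      (Y.card : ℝ) ≤ CF * R ^ δ *
        ∏ i, (ρ * (∫ ζ, ‖G i ζ‖ ^ 2) / H ^ 2) ^ (1 / (((4 : ℕ) : ℝ) - 1)))
    (hCP1 : 1 ≤ CP) (hCG1 : 1 ≤ CG) (hCA : 0 < CA) (hCT0 : 0 < CT)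
    (hPK : ∀ (κ R r δ : ℝ) (G : Z m → ℂ) (S : Finset (Pk m))
      (z₁ : Z m), 0 ≤ κ → κ ≤ 3 / 8 → 0 < δ → δ ≤ 1 / 4 → 1 ≤ R → CP ≤ R ^ δ → TC G →
      (∀ ζ, G ζ ≠ 0 → ζ ∈ Rg m κ R⁻¹) →
      (∃ G' : (Fin m → ℤ) → Z m → ℂ, (∀ k, TC (G' k)) ∧
        (∀ k ζ, G' k ζ ≠ 0 → ζ ∈ Rg m (κ + CP * R ^ (-δ)) R⁻¹ ∧
          ‖ζ.1⁻¹ • ζ.2.1 - ctr (sR R) k‖ ≤ 2 * sR R) ∧
        (∀ k z, TF (G' k) z = ∑ W ∈ S.filter (fun W => W.1 = k), Fp β ψ R δ G W z) ∧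
        ∀ k z, ‖TF (G' k) z‖ ≤ CP * ‖TP β (ctr (sR R) k) (sR R) G z‖) ∧
      (Real.sqrt R ≤ r → r ≤ R / CP → ∃ G' : (Fin m → ℤ) → Z m → ℂ, (∀ k, TC (G' k)) ∧
        (∀ k ζ, G' k ζ ≠ 0 → ζ ∈ Rg m (κ + CP * R ^ (-δ)) r⁻¹ ∧
          ‖ζ.1⁻¹ • ζ.2.1 - ctr (sR R) k‖ ≤ 2 * sR R) ∧
        (∀ k z, TF (G' k) z = (χ (r⁻¹ • (z - z₁)) : ℂ) *
          ∑ W ∈ S.filter (fun W => W.1 = k), Fp β ψ R δ G W z) ∧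
        ∀ k z, ‖TF (G' k) z‖ ≤ CP * ‖TP β (ctr (sR R) k) (sR R) G z‖))
    (hGB : ∀ (κ R r : ℝ) (G : Z m → ℂ) (S : Finset (Pk m)) (z₁ : Z m), 0 ≤ κ → κ ≤ 3 / 8 →
      1 ≤ R → CG ≤ R ^ δ → Real.sqrt R ≤ r → r ≤ R / CG → TC G →
      (∀ ζ, G ζ ≠ 0 → ζ ∈ Rg m κ R⁻¹) → (∀ W ∈ S, W.1 ∈ Ks m (sR R)) →
      ∫⁻ z, ‖(χ (r⁻¹ • (z - z₁)) : ℂ) * ∑ W ∈ S, Fp β ψ R δ G W z‖ₑ ^ 2 ≤
        ENNReal.ofReal (CG * R ^ (lo m * δ) * (r / R)) *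
          ∑ W ∈ S, al2 N β R δ G W * ENNReal.ofReal (R ^ (((m : ℝ) + 2) / 2)))
    (hAM : ∀ (κ R A : ℝ) (G : Z m → ℂ) (W : Pk m), 0 ≤ κ → κ ≤ 1 / 2 → 1 ≤ R → 0 < A →
      Cls L κ R A G → al N β R δ G W ≤ CA * A ∧
      al2 N β R δ G W = ENNReal.ofReal (al N β R δ G W ^ 2))
    (hPL : ∀ G : Z m → ℂ, TC G → ∫⁻ z, ‖TF G z‖ₑ ^ 2 = ENNReal.ofReal (∫ ζ, ‖G ζ‖ ^ 2))
    (hTL : ∀ (κ R A : ℝ) (G : Z m → ℂ) (S : Finset (Pk m)) (z : Z m), 0 ≤ κ → κ ≤ 1 / 2 →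
      1 ≤ R → 0 < A → Cls L κ R A G → (∀ W ∈ S, W.1 ∈ Ks m (sR R)) →
      (∀ W ∈ S, ¬ near R δ W z) → ∑ W ∈ S, ‖Fp β ψ R δ G W z‖ ≤ CT * A * R ^ (-(2 * δ)))
    (hcb1 : ∀ (ρ : ℝ) (z : Z m), 0 < ρ → ‖z - ρ • zc (cb ρ z)‖ ≤ ((m : ℝ) + 1) * ρ)
    (hcb2 : ∀ (R δ : ℝ) (W : Pk m) (z : Z m), 1 ≤ R → 0 ≤ δ → near R δ W z →
      Inc R δ (tb R W) (cb (Real.sqrt R) z))
    (κ R r A H : ℝ) (G : Fin 4 → Z m → ℂ) (c : Fin 4 → E m) (S : Fin 4 → Finset (Pk m))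
    (a b M : Fin 4 → ℝ) (QQ : Finset (Zi m)) (l k : Fin 4 → ℕ) (X : Finset (Z m))
    (hκ : 0 ≤ κ) (hκ1 : κ ≤ 3 / 8) (hR : 1 ≤ R) (hR1 : 8 * CP ≤ R ^ δ) (hR2 : CG ≤ R ^ δ)
    (hR3 : 12 * K ≤ R ^ δ) (hR4 : 2 * (CT * b₀⁻¹) ≤ R ^ δ) (hA : 0 < A) (hH : 0 < H)
    (hbA : b₀ * A ≤ R ^ δ * H) (hc : CJ K c₀ c)
    (hab : ∀ i, 0 < a i ∧ 1 ≤ b i ∧ 0 < M i) (hCls : ∀ i, Cls L κ R A (G i)) (hSep : Sep X)
    (hS : ∀ i, ∀ W ∈ S i, W.1 ∈ Ks m (sR R) ∧ ‖ctr (sR R) W.1 - c i‖ ≤ 1 / K + sR R ∧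
      al N β R δ (G i) W ≤ 2 * a i)
    (hb2 : ∀ i, ∀ W ∈ S i, (((S i).filter (fun W' => tb R W' = tb R W)).card : ℝ) ≤ 2 * b i)
    (hM2 : ∀ i, ∀ z ∈ X, ((((S i).image (tb R)).filter (fun T => Inc R δ T (cb (Real.sqrt R) z) ∧
      Sh QQ R r δ (l i) (k i) T (bl R r (cb (Real.sqrt R) z)))).card : ℝ) ≤ 2 * M i)
    (hX : ∀ i, ∀ z ∈ X, H ≤ ‖∑ W ∈ SB QQ R r δ (l i) (k i) (S i) (bl R r (cb (Real.sqrt R) z)),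
      Fp β ψ R δ (G i) W z‖) (q : Zi m) (hq : q ∈ X.image (cb (Real.sqrt R))) :
    ((X.filter (fun z => cb (Real.sqrt R) z = q)).card : ℝ) * H ^ (8 / 3 : ℝ) ≤
      CF * ((m : ℝ) + 1) * (128 * CG) ^ 2 * R ^ (2 * lo m * δ) *
        ∏ i, (M i * b i * a i ^ 2 * R ^ ((m : ℝ) / 2)) ^ (1 / 3 : ℝ) := by
  have hR0 : 0 < R := by linarith
  have hsq0 : 0 < Real.sqrt R := Real.sqrt_pos.2 hR0
  have hsq1 : 1 ≤ Real.sqrt R := Real.one_le_sqrt.2 hR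
  have hm0 : (0 : ℝ) ≤ m := Nat.cast_nonneg m
  obtain ⟨z₁, hz₁, hz₁q⟩ := Finset.mem_image.1 hq
  obtain ⟨Xq, hXq⟩ : ∃ Xq, Xq = X.filter (fun z => cb (Real.sqrt R) z = q) := ⟨_, rfl⟩
  rw [← hXq]
  have hXq1 : ∀ z ∈ Xq, z ∈ X ∧ cb (Real.sqrt R) z = q := by
    intro z hz; rw [hXq] at hz; exact Finset.mem_filter.1 hz
  obtain ⟨S', hS'⟩ : ∃ S' : Fin 4 → Finset (Pk m), ∀ i, S' i =
      (SB QQ R r δ (l i) (k i) (S i) (bl R r q)).filter (fun W => Inc R δ (tb R W) q) :=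
    ⟨_, fun i => rfl⟩
  have hS'S : ∀ i, ∀ W ∈ S' i, W ∈ S i := fun i W hW => by
    rw [hS'] at hW
    exact Pool.Agent.H33.G.SB_subset (Finset.mem_filter.1 hW).1
  have hcard : ∀ i, ((S' i).card : ℝ) ≤ 4 * (M i * b i) := by
    intro i
    obtain ⟨ha, hb, hM⟩ := hab i
    refine Pool.Agent.H33.G.card_tubes (R := R) (by linarith) (S i) (S' i)
      (fun T => Inc R δ T q ∧ Sh QQ R r δ (l i) (k i) T (bl R r q)) ?_ (hb2 i) ?_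
    · intro W hW
      rw [hS'] at hW
      obtain ⟨g1, g2⟩ := Finset.mem_filter.1 hW
      exact ⟨(Pool.Agent.H33.G.mem_SB.1 g1).1, g2, (Pool.Agent.H33.G.mem_SB.1 g1).2⟩
    · have := hM2 i z₁ hz₁
      rwa [hz₁q] at this
  have hlow : ∀ z ∈ Xq, ∀ i, H / 2 ≤ ‖∑ W ∈ S' i, Fp β ψ R δ (G i) W z‖ := by
    intro z hz i
    obtain ⟨hzX, hzq⟩ := hXq1 z hz
    have h1 := hX i z hzX
    rw [hzq] at h1
    rw [hS']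
    exact low_one hδ hCT0 hTL hcb2 hκ hκ1 hR hA hH (hCls i) (fun W hW => (hS i W hW).1) hb₀ hbA
      hR4 hzq h1
  choose G' g1 g2 g3 g4 using fun i => one_fam (Ψ := Ψ) (Ξ := Ξ) (K := K) (c := c i)
    hδ hδ1 hCP1 hCG1 hCA hPK hGB hAM hPL (S' i) (Real.sqrt R • zc q) hκ hκ1 hR
    hR1 hR2 hK hR3 hA (hCls i) (hab i).1
    (fun W hW => hS i W (hS'S i W hW)) (hcard i)
  have hm1 : (1 : ℝ) ≤ ((m : ℝ) + 1) * Real.sqrt R := by nlinarith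
  have hball : ∀ z ∈ Xq, ‖z - Real.sqrt R • zc q‖ ≤ ((m : ℝ) + 1) * Real.sqrt R := by
    intro z hz
    have := hcb1 (Real.sqrt R) z hsq0
    rwa [(hXq1 z hz).2] at this
  have hχ1 : ∀ z ∈ Xq, 1 ≤ χ ((Real.sqrt R)⁻¹ • (z - Real.sqrt R • zc q)) := by
    intro z hz
    refine hχ.2.2.2.2 _ ?_
    rw [norm_smul, norm_inv, Real.norm_eq_abs, abs_of_pos hsq0, inv_mul_le_iff₀ hsq0]
    have := hball z hz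
    nlinarith
  have hTF : ∀ z ∈ Xq, ∀ i, H / 2 ≤ ‖TF (G' i) z‖ := by
    intro z hz i
    rw [g3, norm_mul, Complex.norm_real, Real.norm_eq_abs,
      abs_of_nonneg (by have := hχ1 z hz; linarith)]
    calc H / 2 ≤ ‖∑ W ∈ S' i, Fp β ψ R δ (G i) W z‖ := hlow z hz i
      _ = 1 * ‖∑ W ∈ S' i, Fp β ψ R δ (G i) W z‖ := (one_mul _).symm
      _ ≤ _ := mul_le_mul_of_nonneg_right (hχ1 z hz) (norm_nonneg _)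
  have hρ : 2 * (Real.sqrt R)⁻¹ * (((m : ℝ) + 1) * Real.sqrt R) ≤ 2 * ((m : ℝ) + 1) := by
    refine le_of_eq ?_
    have e : (Real.sqrt R)⁻¹ * Real.sqrt R = 1 := inv_mul_cancel₀ hsq0.ne'
    calc 2 * (Real.sqrt R)⁻¹ * (((m : ℝ) + 1) * Real.sqrt R)
        = 2 * ((m : ℝ) + 1) * ((Real.sqrt R)⁻¹ * Real.sqrt R) := by ring
      _ = _ := by rw [e, mul_one]
  have hfin := hF (((m : ℝ) + 1) * Real.sqrt R) (2 * (Real.sqrt R)⁻¹) (H / 2) c G'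
    (Real.sqrt R • zc q) Xq hm1 (by positivity) hρ (by positivity) hc g1 g2
    (fun z hz z' hz' hne => hSep z (hXq1 z hz).1 z' (hXq1 z' hz').1 hne) hball hTF
  have e13 : 1 / (((4 : ℕ) : ℝ) - 1) = 1 / 3 := by norm_num
  rw [e13] at hfin
  have hab0 : ∀ i, 0 ≤ M i * b i * a i ^ 2 := by
    intro i
    obtain ⟨ha, hb, hM⟩ := hab i
    have : 0 ≤ b i := by linarith
    positivity
  exact num_cube (P := fun i => M i * b i * a i ^ 2) (I := fun i => ∫ ζ, ‖G' i ζ‖ ^ 2)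
    hR hH hCG1 hCF0 hδ hδ1 hab0
    (fun i => integral_nonneg fun ζ => by positivity)
    (fun i => (g4 i).trans (le_of_eq (by ring))) hfin

/-- C4Q -/
theorem pf_C4Q (hFLK : T_FLK) (hPKT : T_PKT) (hGBE : T_GBE) (hTLS : T_TLS) (hCBN : T_CBN)
    (hPLN : T_PLN) (hAMU : T_AMU) : T_C4Q := by
  intro m L β Ψ Ξ ψ χ K c₀ δ b₀ B hm hβ hψ hχ hK hc₀ hδ hδ1 hb₀ hB N hN
  obtain ⟨CF, hCF0, hF⟩ := hFLK m 4 K c₀ δ (2 * ((m : ℝ) + 1)) hm (by norm_num) hK hc₀ hδ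
    (by positivity)
  obtain ⟨CP, hCP1, hPK⟩ := hPKT m β Ψ Ξ ψ χ hβ hψ hχ
  obtain ⟨CG, hCG1, hGB⟩ := hGBE m N β Ψ Ξ ψ χ δ hβ hψ hχ hδ (by linarith) hN
  obtain ⟨CT, hCT0, hTL⟩ := hTLS m L N β Ψ ψ δ (2 * δ) hβ hψ hδ (by linarith) hN
  obtain ⟨CA, hCA0, hAM⟩ := hAMU m L N β δ hβ hδ.le hN
  obtain ⟨hcb1, hcb2, -⟩ := hCBN m
  obtain ⟨Ccube, hCcube⟩ : ∃ C : ℝ, C = CF * ((m : ℝ) + 1) * (128 * CG) ^ 2 := ⟨_, rfl⟩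
  have hCc0 : 0 ≤ Ccube := by rw [hCcube]; positivity
  have hCTb : 0 ≤ CT * b₀⁻¹ := by positivity
  refine ⟨1 + 8 * CP + CG + 12 * K + 2 * (CT * b₀⁻¹) + Ccube, by linarith, ?_⟩
  intro κ R r A H G c S a b M QQ l k X hκ hκ1 hR hCR hA hH hbA hc hab hCls hSep hS hcS hb2 hM2 hX
  classical
  have hR0 : 0 < R := by linarith
  have key := one_cube m L β Ψ Ξ ψ χ K c₀ δ b₀ hK hχ hδ hδ1 hb₀ N CF CP CG CT CA hCF0 hF hCP1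
    hCG1 hCA0 hCT0 hPK hGB hAM (fun G hG => (hPLN m G hG).1)
    (fun κ R A G S z h1 h2 h3 h4 h5 h6 => (hTL κ R A G S z h1 h2 h3 h4 h5 h6).1) hcb1 hcb2
    κ R r A H G c S a b M QQ l k X hκ hκ1 hR (by linarith) (by linarith) (by linarith)
    (by linarith) hA hH hbA hc hab hCls hSep hS hb2 hM2 hX
  rw [← hCcube] at key
  have hP0 : 0 ≤ ∏ i, (M i * b i * a i ^ 2 * R ^ ((m : ℝ) / 2)) ^ (1 / 3 : ℝ) := by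
    refine Finset.prod_nonneg fun i _ => Real.rpow_nonneg ?_ _
    obtain ⟨ha, hb, hM⟩ := hab i
    have : 0 ≤ b i := by linarith
    positivity
  have h1 : (X.card : ℝ) = ∑ q ∈ X.image (cb (Real.sqrt R)),
      ((X.filter (fun z => cb (Real.sqrt R) z = q)).card : ℝ) := by
    exact_mod_cast Finset.card_eq_sum_card_image (cb (Real.sqrt R)) X
  rw [h1, Finset.sum_mul]
  calc _ ≤ ∑ q ∈ X.image (cb (Real.sqrt R)), Ccube * R ^ (2 * lo m * δ) *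
        ∏ i, (M i * b i * a i ^ 2 * R ^ ((m : ℝ) / 2)) ^ (1 / 3 : ℝ) :=
        Finset.sum_le_sum key
    _ = Ccube * (R ^ (2 * lo m * δ) * (X.image (cb (Real.sqrt R))).card *
        ∏ i, (M i * b i * a i ^ 2 * R ^ ((m : ℝ) / 2)) ^ (1 / 3 : ℝ)) := by
        rw [Finset.sum_const, nsmul_eq_mul]
        ring
    _ ≤ (1 + 8 * CP + CG + 12 * K + 2 * (CT * b₀⁻¹) + Ccube) *
        (R ^ (2 * lo m * δ) * (X.image (cb (Real.sqrt R))).card *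
        ∏ i, (M i * b i * a i ^ 2 * R ^ ((m : ℝ) / 2)) ^ (1 / 3 : ℝ)) := by
        refine mul_le_mul_of_nonneg_right (by linarith) (mul_nonneg (by positivity) hP0)
    _ = _ := by ring

end Pool.Agent.H96.M4.C4Q
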