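import Pool.Agent.H94.M4.Targets
import Pool.Agent.H33.G.TE2

/-!
Theorem G, wave packets of one family in one cube of side `R^{1/2}` (as in H96/T3/C3Q).
-/

set_option autoImplicit false

namespace Pool.Agent.H96.M4.C4Q

open MeasureTheory Set
open Pool.Agent.H83.G
open scoped ENNReal NNReal RealInnerProductSpace

theorem cont_e : Continuous (fun x : ℝ => e x) := by
  unfold e
  fun_prop

theorem cont_ph {m : ℕ} (z : Z m) : Continuous (fun ζ : Z m => ph z ζ) := by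
  unfold ph
  fun_prop

theorem int_TF {m : ℕ} {G : Z m → ℂ} (hG : TC G) (z : Z m) :
    Integrable (fun ζ : Z m => e (ph z ζ) * G ζ) := by
  refine Continuous.integrable_of_hasCompactSupport ?_ ?_
  · exact (cont_e.comp (cont_ph z)).mul hG.1.continuous
  · exact hG.2.mul_left

theorem tc_sum {m : ℕ} {ι : Type*} (s : Finset ι) (G : ι → Z m → ℂ)
    (h : ∀ k ∈ s, TC (G k)) : TC (fun ζ => ∑ k ∈ s, G k ζ) := by
  classical
  induction s using Finset.induction_on with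
  | empty =>
    have h0 : (fun ζ : Z m => ∑ k ∈ (∅ : Finset ι), G k ζ) = (0 : Z m → ℂ) := by
      funext ζ
      simp
    rw [h0]
    exact ⟨contDiff_const, HasCompactSupport.zero⟩
  | insert a s ha ih =>
    have h1 := h a (Finset.mem_insert_self _ _)
    have h2 := ih fun k hk => h k (Finset.mem_insert_of_mem hk)
    have h3 : (fun ζ => ∑ k ∈ insert a s, G k ζ) = (G a) + (fun ζ => ∑ k ∈ s, G k ζ) := by
      funext ζ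
      rw [Finset.sum_insert ha]; rfl
    rw [h3]
    exact ⟨h1.1.add h2.1, h1.2.add h2.2⟩

theorem TF_sum {m : ℕ} {ι : Type*} (s : Finset ι) (G : ι → Z m → ℂ)
    (h : ∀ k ∈ s, TC (G k)) (z : Z m) : TF (fun ζ => ∑ k ∈ s, G k ζ) z = ∑ k ∈ s, TF (G k) z := by
  unfold TF
  rw [← integral_finsetSum _ fun k hk => int_TF (h k hk) z]
  refine integral_congr_ae (Filter.Eventually.of_forall fun ζ => ?_)
  simp only [Finset.mul_sum]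

/-- one family in one cube -/
theorem one_fam {m L N : ℕ} {β : E m → ℂ} {Ψ Ξ : Z m → ℂ} {ψ χ : Z m → ℝ}
    {δ CP CG CA : ℝ} (hδ : 0 < δ) (hδ1 : δ ≤ 1 / 100) (hCP1 : 1 ≤ CP) (hCG1 : 1 ≤ CG)
    (hCA : 0 < CA)
    (hPK : ∀ (κ R r δ : ℝ) (G : Z m → ℂ) (S : Finset (Pk m))
      (z₁ : Z m), 0 ≤ κ → κ ≤ 3 / 8 → 0 < δ → δ ≤ 1 / 4 → 1 ≤ R → CP ≤ R ^ δ → TC G →
      (∀ ζ, G ζ ≠ 0 → ζ ∈ Rg m κ R⁻¹) →
      (∃ G' : (Fin m → ℤ) → Z m → ℂ, (∀ k, TC (G' k)) ∧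
        (∀ k ζ, G' k ζ ≠ 0 → ζ ∈ Rg m (κ + CP * R ^ (-δ)) R⁻¹ ∧
          ‖ζ.1⁻¹ • ζ.2.1 - ctr (sR R) k‖ ≤ 2 * sR R) ∧
        (∀ k z, TF (G' k) z = ∑ W ∈ S.filter (fun W => W.1 = k), Fp β ψ R δ G W z) ∧
        ∀ k z, ‖TF (G' k) z‖ ≤ CP * ‖TP β (ctr (sR R) k) (sR R) G z‖) ∧
      (Real.sqrt R ≤ r → r ≤ R / CP → ∃ G' : (Fin m → ℤ) → Z m → ℂ, (∀ k, TC (G' k)) ∧
        (∀ k ζ, G' k ζ ≠ 0 → ζ ∈ Rg m (κ + CP * R ^ (-δ)) r⁻¹ ∧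
          ‖ζ.1⁻¹ • ζ.2.1 - ctr (sR R) k‖ ≤ 2 * sR R) ∧
        (∀ k z, TF (G' k) z = (χ (r⁻¹ • (z - z₁)) : ℂ) *
          ∑ W ∈ S.filter (fun W => W.1 = k), Fp β ψ R δ G W z) ∧
        ∀ k z, ‖TF (G' k) z‖ ≤ CP * ‖TP β (ctr (sR R) k) (sR R) G z‖))
    (hGB : ∀ (κ R r : ℝ) (G : Z m → ℂ) (S : Finset (Pk m)) (z₁ : Z m), 0 ≤ κ → κ ≤ 3 / 8 →
      1 ≤ R → CG ≤ R ^ δ → Real.sqrt R ≤ r → r ≤ R / CG → TC G →
      (∀ ζ, G ζ ≠ 0 → ζ ∈ Rg m κ R⁻¹) → (∀ W ∈ S, W.1 ∈ Ks m (sR R)) →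
      ∫⁻ z, ‖(χ (r⁻¹ • (z - z₁)) : ℂ) * ∑ W ∈ S, Fp β ψ R δ G W z‖ₑ ^ 2 ≤
        ENNReal.ofReal (CG * R ^ (lo m * δ) * (r / R)) *
          ∑ W ∈ S, al2 N β R δ G W * ENNReal.ofReal (R ^ (((m : ℝ) + 2) / 2)))
    (hAM : ∀ (κ R A : ℝ) (G : Z m → ℂ) (W : Pk m), 0 ≤ κ → κ ≤ 1 / 2 → 1 ≤ R → 0 < A →
      Cls L κ R A G → al N β R δ G W ≤ CA * A ∧
      al2 N β R δ G W = ENNReal.ofReal (al N β R δ G W ^ 2))
    (hPL : ∀ G : Z m → ℂ, TC G → ∫⁻ z, ‖TF G z‖ₑ ^ 2 = ENNReal.ofReal (∫ ζ, ‖G ζ‖ ^ 2))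
    {κ R A a K D : ℝ} {G : Z m → ℂ} {c : E m} (S : Finset (Pk m)) (z₁ : Z m) (hκ : 0 ≤ κ)
    (hκ1 : κ ≤ 3 / 8) (hR : 1 ≤ R) (hR1 : 8 * CP ≤ R ^ δ) (hR2 : CG ≤ R ^ δ) (hK : 1 ≤ K)
    (hR3 : 12 * K ≤ R ^ δ)
    (hA : 0 < A) (hCls : Cls L κ R A G) (ha : 0 < a)
    (hS : ∀ W ∈ S, W.1 ∈ Ks m (sR R) ∧ ‖ctr (sR R) W.1 - c‖ ≤ 1 / K + sR R ∧
      al N β R δ G W ≤ 2 * a) (hD : (S.card : ℝ) ≤ D) :
    ∃ G' : Z m → ℂ, TC G' ∧
      (∀ ζ, G' ζ ≠ 0 → 1 / 4 ≤ ζ.1 ∧ ζ.1 ≤ 8 ∧ ‖ζ.1⁻¹ • ζ.2.1 - c‖ ≤ 5 / (4 * K) ∧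
        |ζ.2.2 - ‖ζ.2.1‖ ^ 2 / ζ.1| ≤ 2 * (Real.sqrt R)⁻¹) ∧
      (∀ z, TF G' z = (χ ((Real.sqrt R)⁻¹ • (z - z₁)) : ℂ) * ∑ W ∈ S, Fp β ψ R δ G W z) ∧
      ∫ ζ, ‖G' ζ‖ ^ 2 ≤ CG * R ^ (lo m * δ) * (4 * a ^ 2 * D) * R ^ (((m : ℝ) + 1) / 2) := by
  classical
  have hR0 : 0 < R := by linarith
  have hRδ : 0 < R ^ δ := Real.rpow_pos_of_pos hR0 _
  have hsq : Real.sqrt R = R ^ (1 / 2 : ℝ) := Real.sqrt_eq_rpow R
  have hsq0 : 0 < Real.sqrt R := Real.sqrt_pos.2 hR0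
  have hδs : R ^ δ ≤ Real.sqrt R := by
    rw [hsq]; exact Real.rpow_le_rpow_of_exponent_le hR (by linarith)
  have hss : Real.sqrt R * Real.sqrt R = R := Real.mul_self_sqrt hR0.le
  have hrC : ∀ C : ℝ, 1 ≤ C → C ≤ R ^ δ → Real.sqrt R ≤ R / C := by
    intro C hC hCR
    rw [le_div_iff₀ (by linarith)]
    calc Real.sqrt R * C ≤ Real.sqrt R * Real.sqrt R :=
          mul_le_mul_of_nonneg_left (hCR.trans hδs) hsq0.le
      _ = R := hss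
  obtain ⟨-, hP⟩ := hPK κ R (Real.sqrt R) δ G S z₁ hκ hκ1 hδ (by linarith) hR (by linarith)
    hCls.1 hCls.2.1
  obtain ⟨G', g1, g2, g3, -⟩ := hP le_rfl (hrC CP hCP1 (by linarith))
  have hTF : ∀ z, TF (fun ζ => ∑ k ∈ S.image Prod.fst, G' k ζ) z =
      (χ ((Real.sqrt R)⁻¹ • (z - z₁)) : ℂ) * ∑ W ∈ S, Fp β ψ R δ G W z := by
    intro z
    rw [TF_sum _ _ fun k _ => g1 k]
    simp_rw [g3, ← Finset.mul_sum]
    congr 1
    exact Finset.sum_fiberwise_of_maps_to (fun W hW => Finset.mem_image_of_mem _ hW) _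
  have hTC : TC (fun ζ => ∑ k ∈ S.image Prod.fst, G' k ζ) := tc_sum _ _ fun k _ => g1 k
  refine ⟨fun ζ => ∑ k ∈ S.image Prod.fst, G' k ζ, hTC, ?_, hTF, ?_⟩
  · intro ζ hζ
    obtain ⟨k, hk, hkz⟩ := Finset.exists_ne_zero_of_sum_ne_zero hζ
    obtain ⟨W, hW, rfl⟩ := Finset.mem_image.1 hk
    obtain ⟨⟨q1, q2, -, q4⟩, q5⟩ := g2 _ ζ hkz
    have hκ' : κ + CP * R ^ (-δ) ≤ 1 / 2 := by
      have : CP * R ^ (-δ) ≤ 1 / 8 := by
        rw [Real.rpow_neg hR0.le, ← div_eq_mul_inv, div_le_iff₀ hRδ]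
        linarith
      linarith
    refine ⟨by linarith, by linarith, ?_, ?_⟩
    · have e1 : ζ.1⁻¹ • ζ.2.1 - c = (ζ.1⁻¹ • ζ.2.1 - ctr (sR R) W.1) + (ctr (sR R) W.1 - c) := by
        abel
      rw [e1]
      have e2 := (hS W hW).2.1
      have e3 : 3 * sR R ≤ 1 / (4 * K) := by
        unfold sR
        rw [← div_eq_mul_inv, div_le_div_iff₀ hsq0 (by linarith)]
        linarith
      have e4 : 5 / (4 * K) = 1 / K + 1 / (4 * K) := by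
        have : K ≠ 0 := by linarith
        field_simp; norm_num
      rw [e4]
      refine (norm_add_le _ _).trans ?_
      linarith
    · refine q4.trans ?_
      refine mul_le_mul_of_nonneg_right (by linarith) (by positivity)
  · have h1 := hPL _ hTC
    have h2 := hGB κ R (Real.sqrt R) G S z₁ hκ hκ1 hR hR2 le_rfl (hrC CG hCG1 hR2) hCls.1
      hCls.2.1 fun W hW => (hS W hW).1
    have h3 : ∑ W ∈ S, al2 N β R δ G W * ENNReal.ofReal (R ^ (((m : ℝ) + 2) / 2)) ≤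
        ENNReal.ofReal (4 * a ^ 2 * D * R ^ (((m : ℝ) + 2) / 2)) := by
      have h4 : ∀ W ∈ S, al2 N β R δ G W * ENNReal.ofReal (R ^ (((m : ℝ) + 2) / 2)) ≤
          ENNReal.ofReal (4 * a ^ 2 * R ^ (((m : ℝ) + 2) / 2)) := by
        intro W hW
        obtain ⟨-, h5⟩ := hAM κ R A G W hκ (by linarith) hR hA hCls
        rw [h5, ← ENNReal.ofReal_mul (by positivity)]
        refine ENNReal.ofReal_le_ofReal (mul_le_mul_of_nonneg_right ?_ (by positivity))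
        have h6 := (hS W hW).2.2
        have h7 : 0 ≤ al N β R δ G W := Real.sqrt_nonneg _
        calc al N β R δ G W ^ 2 ≤ (2 * a) ^ 2 := pow_le_pow_left₀ h7 h6 2
          _ = 4 * a ^ 2 := by ring
      calc _ ≤ ∑ W ∈ S, ENNReal.ofReal (4 * a ^ 2 * R ^ (((m : ℝ) + 2) / 2)) :=
            Finset.sum_le_sum h4
        _ = ENNReal.ofReal ((S.card : ℝ) * (4 * a ^ 2 * R ^ (((m : ℝ) + 2) / 2))) := by
            rw [Finset.sum_const, nsmul_eq_mul, ENNReal.ofReal_mul (Nat.cast_nonneg S.card),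
              ENNReal.ofReal_natCast]
        _ ≤ _ := by
            refine ENNReal.ofReal_le_ofReal ?_
            calc (S.card : ℝ) * (4 * a ^ 2 * R ^ (((m : ℝ) + 2) / 2))
                ≤ D * (4 * a ^ 2 * R ^ (((m : ℝ) + 2) / 2)) :=
                  mul_le_mul_of_nonneg_right hD (by positivity)
              _ = _ := by ring
    have hD0 : 0 ≤ D := le_trans (Nat.cast_nonneg _) hD
    have h8 : ENNReal.ofReal (∫ ζ, ‖∑ k ∈ S.image Prod.fst, G' k ζ‖ ^ 2) ≤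
        ENNReal.ofReal (CG * R ^ (lo m * δ) * (Real.sqrt R / R) *
          (4 * a ^ 2 * D * R ^ (((m : ℝ) + 2) / 2))) := by
      rw [← h1, ENNReal.ofReal_mul (by positivity)]
      refine le_trans (le_of_eq ?_) (h2.trans (mul_le_mul_right h3 _))
      exact lintegral_congr fun z => by rw [hTF]
    have h9 := (ENNReal.ofReal_le_ofReal_iff (by positivity)).1 h8
    refine h9.trans (le_of_eq ?_)
    have h10 : Real.sqrt R / R * R ^ (((m : ℝ) + 2) / 2) = R ^ (((m : ℝ) + 1) / 2) := by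
      rw [hsq, div_eq_mul_inv, ← Real.rpow_neg_one R, ← Real.rpow_add hR0, ← Real.rpow_add hR0]
      congr 1; ring
    rw [← h10]; ring

end Pool.Agent.H96.M4.C4Q
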